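import Pool.Agent.H43.TC.Targets

/-!
# MP_183c3b_co, module OUT: the outer bound
-/

set_option autoImplicit false

namespace Pool.Agent.H13.TC

open Filter Topology Pool.Agent.H43.TC

lemma walks_le {G : Type} [AddCommGroup G] {k : ℕ} (s : Fin k → G) (c : G → Bool) (b : Bool)
    (t : ℕ) : ∀ x, walks s c b t x ≤ if c x = b then (2 * k) ^ t else 0 := by
  induction t with
  | zero =>
    intro x
    simp [walks]
  | succ t ih =>
    intro x
    simp only [walks]
    split_ifs with h
    · have h1 : ∀ y, walks s c b t y ≤ (2 * k) ^ t := fun y => (ih y).trans (by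
        split_ifs <;> simp)
      calc ∑ i : Fin k, (walks s c b t (x + s i) + walks s c b t (x - s i))
          ≤ ∑ _i : Fin k, ((2 * k) ^ t + (2 * k) ^ t) :=
            Finset.sum_le_sum fun i _ => Nat.add_le_add (h1 _) (h1 _)
        _ = (2 * k) ^ (t + 1) := by
            rw [Finset.sum_const, Finset.card_univ, Fintype.card_fin, smul_eq_mul, pow_succ]
            ring
    · exact le_refl _

lemma total_le {k n : ℕ} [NeZero n] (c : Tor k n → Bool) (b : Bool) (t : ℕ) :
    total c b t ≤ size c b * (2 * k) ^ t := by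
  unfold total size
  calc ∑ x, walks e c b t x ≤ ∑ x, (if c x = b then (2 * k) ^ t else 0) :=
        Finset.sum_le_sum fun x _ => walks_le e c b t x
    _ = (Finset.univ.filter (fun x => c x = b)).card * (2 * k) ^ t := by
        rw [← Finset.sum_filter, Finset.sum_const, smul_eq_mul]

lemma stay_nonneg {k n : ℕ} [NeZero n] (c : Tor k n → Bool) (b : Bool) (t : ℕ) :
    0 ≤ stay c b t := by
  unfold stay
  positivity

lemma stay_le_one {k n : ℕ} [NeZero n] (c : Tor k n → Bool) (b : Bool) (t : ℕ) :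
    stay c b t ≤ 1 := by
  unfold stay
  refine div_le_one_of_le₀ ?_ (by positivity)
  exact_mod_cast total_le c b t

lemma ineq_dens {p q N : ℕ} (h : Ineq p q N) (n : ℕ) (c : Tor 2 (n + 3) → Bool) :
    (N / 64 : ℝ) * dens c false ≤ q * mono c false 3 + p * (1 - mono c true 3) := by
  have h1 := h (n + 3) c
  have h2 : (N : ℝ) * size c false + p * total c true 3
      ≤ q * total c false 3 + 64 * p * ((n + 3 : ℕ) : ℝ) ^ 2 := by exact_mod_cast h1
  have h3 : (0 : ℝ) < ((n + 3 : ℕ) : ℝ) ^ 2 := by positivity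
  unfold dens mono
  have e1 : ((2 : ℝ) * ((2 : ℕ) : ℝ)) ^ 3 = 64 := by norm_num
  rw [e1]
  set S : ℝ := ((n + 3 : ℕ) : ℝ) ^ 2 with hS
  have e2 : (N / 64 : ℝ) * ((size c false : ℝ) / S) = (N * size c false) / (64 * S) := by
    field_simp
  have e3 : (q : ℝ) * ((total c false 3 : ℝ) / (S * 64)) +
      p * (1 - (total c true 3 : ℝ) / (S * 64))
        = (q * total c false 3 + 64 * p * S - p * total c true 3) / (64 * S) := by
    field_simp
    ring
  rw [e2, e3]
  refine div_le_div_of_nonneg_right ?_ (by positivity)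
  linarith

lemma ineq_region (hINQ : T_INQ) {p q N : ℕ} (h : Ineq p q N) {x y : ℝ}
    (hxy : (x, y) ∈ region 2 3) : (N / 64 : ℝ) ≤ q * y + p * (2 - x) :=
  hINQ 2 3 q p (N / 64) (by norm_num) (Nat.cast_nonneg _) (Nat.cast_nonneg _)
    (fun n c => ineq_dens h n c) x y hxy

theorem out (hCER : T_CER) (_hREG : T_REG) (hINQ : T_INQ) : T_OUT := by
  intro x y hxy
  obtain ⟨c1, c2, c3, c4, c5, c6, c7, c8⟩ := hCER
  have hx : 0 ≤ x ∧ x ≤ 1 := by
    obtain ⟨n, c, -, -, ht⟩ := hxy
    have h1 : Tendsto (fun j => stay (c j) true 3) atTop (𝓝 x) :=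
      (continuous_fst.tendsto (x, y)).comp ht
    exact ⟨ge_of_tendsto' h1 fun j => stay_nonneg _ _ _,
      le_of_tendsto' h1 fun j => stay_le_one _ _ _⟩
  refine ⟨hx.1, hx.2, ?_⟩
  have i1 := ineq_region hINQ c1 hxy
  have i2 := ineq_region hINQ c2 hxy
  have i3 := ineq_region hINQ c3 hxy
  have i4 := ineq_region hINQ c4 hxy
  have i5 := ineq_region hINQ c5 hxy
  have i6 := ineq_region hINQ c6 hxy
  have i7 := ineq_region hINQ c7 hxy
  have i8 := ineq_region hINQ c8 hxy
  push_cast at i1 i2 i3 i4 i5 i6 i7 i8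
  unfold Low
  refine ⟨?_, ?_, ?_, ?_, ?_, ?_, ?_, ?_⟩ <;> linarith

end Pool.Agent.H13.TC
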